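import Pool.Graph.R_seed8.H185.ZM.AbP

/-!
# Elementary abelian groups acting on symplectic vector spaces
-/

set_option autoImplicit false

namespace Pool.Agent.H88.WF

open Module Pool.Agent.H185.ZM

section split

variable {V : Type} [AddCommGroup V] [Module ℝ V]

/-- restriction of a bilinear form to a summand of an orthogonal decomposition is nondegenerate -/
lemma nondeg_summand (ω : V →ₗ[ℝ] V →ₗ[ℝ] ℝ) (hnd : ∀ v, (∀ w, ω v w = 0) → v = 0)
    (S T : Submodule ℝ V) (hdec : ∀ v : V, ∃ u ∈ S, ∃ w ∈ T, v = u + w)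
    (horth : ∀ u ∈ S, ∀ w ∈ T, ω u w = 0) (v : S)
    (hv : ∀ w : S, (ω.domRestrict₁₂ S S) v w = 0) : v = 0 := by
  apply Subtype.ext
  apply hnd
  intro w
  obtain ⟨u, hu, t, ht, rfl⟩ := hdec w
  rw [map_add, horth _ v.2 _ ht, add_zero]
  exact hv ⟨u, hu⟩

/-- a nonzero space with a nondegenerate alternating form has dimension at least two -/
lemma two_le_finrank [FiniteDimensional ℝ V] (ω : V →ₗ[ℝ] V →ₗ[ℝ] ℝ) (halt : ∀ v, ω v v = 0)
    (hnd : ∀ v, (∀ w, ω v w = 0) → v = 0) {v0 : V} (hv0 : v0 ≠ 0) : 2 ≤ finrank ℝ V := by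
  by_contra hlt
  have hn1 : finrank ℝ V = 1 := by
    have : 0 < finrank ℝ V := Module.finrank_pos_iff_exists_ne_zero.2 ⟨v0, hv0⟩
    omega
  apply hv0
  apply hnd
  intro w
  obtain ⟨c, rfl⟩ := (finrank_eq_one_iff_of_nonzero' v0 hv0).1 hn1 w
  rw [map_smul, halt, smul_zero]

end split

/-- **An elementary abelian `p`-group acting faithfully and symplectically on a symplectic vector space
of dimension `n` has at most `p ^ (n / 2)` elements.** -/
theorem card_le_symp {p : ℕ} (hp : p.Prime) (n : ℕ) : ∀ (V : Type) [AddCommGroup V]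
    [Module ℝ V] [FiniteDimensional ℝ V] (ω : V →ₗ[ℝ] V →ₗ[ℝ] ℝ) (A : Type) [CommGroup A] [Finite A]
    (ρ : A →* (V →ₗ[ℝ] V)),
    finrank ℝ V = n → (∀ v, ω v v = 0) → (∀ v, (∀ w, ω v w = 0) → v = 0) →
    (∀ a v w, ω (ρ a v) (ρ a w) = ω v w) →
    (∀ a : A, a ^ p = 1) → Function.Injective ρ →
      Nat.card A ≤ p ^ (n / 2) := by
  classical
  induction n using Nat.strong_induction_on with
  | _ n ih =>
  intro V _ _ _ ω A _ _ ρ hn halt hnd hinv hpow hinj
  have hp0 : (p : ℝ) ≠ 0 := Nat.cast_ne_zero.2 hp.ne_zero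
  by_cases hA : ∃ a, (∃ v, v ≠ 0 ∧ ρ a v = v) ∧ (∃ v, ρ a v ≠ v)
  · -- split the space
    obtain ⟨a, ⟨v0, hv0, hav0⟩, ⟨v1, hv1⟩⟩ := hA
    have hcomm : ∀ (b : A) (v : V), ρ b (ρ a v) = ρ a (ρ b v) := by
      intro b v
      rw [← rho_mul_apply, mul_comm, rho_mul_apply]
    let S : V →ₗ[ℝ] V := ∑ i ∈ Finset.range p, ρ (a ^ i)
    have hS : ∀ v, S v = ∑ i ∈ Finset.range p, ρ (a ^ i) v := fun v => by
      simp only [S, LinearMap.sum_apply]
    have hScomm : ∀ (b : A) (v : V), ρ b (S v) = S (ρ b v) := by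
      intro b v
      rw [hS, hS, map_sum]
      refine Finset.sum_congr rfl (fun i _ => ?_)
      rw [← rho_mul_apply, mul_comm, rho_mul_apply]
    let Vp : Submodule ℝ V := LinearMap.ker (ρ a - 1)
    let Vm : Submodule ℝ V := LinearMap.ker S
    have hVp : ∀ v, v ∈ Vp ↔ ρ a v = v := by
      intro v
      rw [LinearMap.mem_ker, LinearMap.sub_apply, sub_eq_zero]
      rfl
    have hVm : ∀ v, v ∈ Vm ↔ S v = 0 := fun v => LinearMap.mem_ker
    have hfix : ∀ v, ρ a (S v) = S v := fun v => by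
      rw [hS]; exact sum_fixed ρ (hpow a) v
    have hdec : ∀ v : V, ∃ u ∈ Vp, ∃ w ∈ Vm, v = u + w := by
      intro v
      refine ⟨(p : ℝ)⁻¹ • S v, ?_, v - (p : ℝ)⁻¹ • S v, ?_, ?_⟩
      · rw [hVp, map_smul, hfix]
      · rw [hVm, map_sub, map_smul, hS (S v), sum_of_fixed ρ (hfix v), smul_smul,
          inv_mul_cancel₀ hp0, one_smul, sub_self]
      · abel
    have horth : ∀ u ∈ Vp, ∀ w ∈ Vm, ω u w = 0 := by
      intro u hu w hw
      rw [hVp] at hu
      rw [hVm, hS] at hw
      have h1 : ∀ i : ℕ, ρ (a ^ i) u = u := by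
        intro i
        induction i with
        | zero => rw [pow_zero, map_one]; rfl
        | succ i ih => rw [pow_succ, rho_mul_apply, hu, ih]
      have h2 : ω u (∑ i ∈ Finset.range p, ρ (a ^ i) w) = (p : ℝ) * ω u w := by
        rw [map_sum]
        have h3 : ∀ i ∈ Finset.range p, ω u (ρ (a ^ i) w) = ω u w := by
          intro i _
          conv_lhs => rw [← h1 i]
          exact hinv _ _ _
        rw [Finset.sum_congr rfl h3, Finset.sum_const, Finset.card_range, nsmul_eq_mul]
      rw [hw, map_zero] at h2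
      exact (mul_eq_zero.1 h2.symm).resolve_left hp0
    have hskew : ∀ u w, ω u w = - ω w u := by
      intro u w
      have h1 := halt (u + w)
      simp only [map_add, LinearMap.add_apply, halt] at h1
      linarith
    have horth' : ∀ u ∈ Vm, ∀ w ∈ Vp, ω u w = 0 := by
      intro u hu w hw
      rw [hskew, horth w hw u hu, neg_zero]
    have hdec' : ∀ v : V, ∃ u ∈ Vm, ∃ w ∈ Vp, v = u + w := by
      intro v
      obtain ⟨u, hu, w, hw, h⟩ := hdec v
      exact ⟨w, hw, u, hu, by rw [h, add_comm]⟩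
    have hcompl : IsCompl Vp Vm := by
      constructor
      · rw [Submodule.disjoint_def]
        intro v h1 h2
        rw [hVp] at h1
        rw [hVm, hS, sum_of_fixed ρ h1] at h2
        exact (smul_eq_zero.1 h2).resolve_left hp0
      · rw [codisjoint_iff, eq_top_iff]
        intro v _
        obtain ⟨u, hu, w, hw, rfl⟩ := hdec v
        exact Submodule.add_mem_sup hu hw
    have hrank := Submodule.finrank_add_eq_of_isCompl hcompl
    have hp0' : 0 < finrank ℝ Vp := by
      rw [Nat.pos_iff_ne_zero]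
      intro h0
      have h1 : Vp = ⊥ := Submodule.finrank_eq_zero.1 h0
      have h2 : v0 ∈ Vp := (hVp v0).2 hav0
      rw [h1, Submodule.mem_bot] at h2
      exact hv0 h2
    have hm0 : 0 < finrank ℝ Vm := by
      rw [Nat.pos_iff_ne_zero]
      intro h0
      have h1 : Vm = ⊥ := Submodule.finrank_eq_zero.1 h0
      apply hv1
      obtain ⟨u, hu, w, hw, hv⟩ := hdec v1
      rw [h1, Submodule.mem_bot] at hw
      rw [hw, add_zero] at hv
      rw [hv]
      exact (hVp u).1 hu
    let ρp : A →* (Vp →ₗ[ℝ] Vp) :=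
      { toFun := fun b => (ρ b).restrict (fun v hv => by
          rw [hVp] at hv ⊢
          rw [← hcomm, hv])
        map_one' := by
          ext v
          show ρ 1 (v : V) = v
          rw [map_one]; rfl
        map_mul' := fun b c => by
          ext v
          show ρ (b * c) (v : V) = ρ b (ρ c v)
          rw [map_mul]; rfl }
    let ρm : A →* (Vm →ₗ[ℝ] Vm) :=
      { toFun := fun b => (ρ b).restrict (fun v hv => by
          rw [hVm] at hv ⊢
          rw [← hScomm, hv, map_zero])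
        map_one' := by
          ext v
          show ρ 1 (v : V) = v
          rw [map_one]; rfl
        map_mul' := fun b c => by
          ext v
          show ρ (b * c) (v : V) = ρ b (ρ c v)
          rw [map_mul]; rfl }
    have hq : ∀ (K : Subgroup A) (x : A ⧸ K), x ^ p = 1 := by
      intro K x
      refine QuotientGroup.induction_on x fun b => ?_
      rw [← QuotientGroup.mk_pow, hpow]; rfl
    have c1 : Nat.card (A ⧸ ρp.ker) ≤ p ^ (finrank ℝ Vp / 2) :=
      ih _ (by omega) Vp (ω.domRestrict₁₂ Vp Vp) (A ⧸ ρp.ker)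
        (QuotientGroup.lift ρp.ker ρp (fun _ h => h)) rfl (fun v => halt v)
        (nondeg_summand ω hnd Vp Vm hdec horth) (by
          intro x v w
          induction x using QuotientGroup.induction_on with
          | _ b => exact hinv b v w) (hq _) (lift_injective ρp)
    have c2 : Nat.card (A ⧸ ρm.ker) ≤ p ^ (finrank ℝ Vm / 2) :=
      ih _ (by omega) Vm (ω.domRestrict₁₂ Vm Vm) (A ⧸ ρm.ker)
        (QuotientGroup.lift ρm.ker ρm (fun _ h => h)) rfl (fun v => halt v)
        (nondeg_summand ω hnd Vm Vp hdec' horth') (by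
          intro x v w
          induction x using QuotientGroup.induction_on with
          | _ b => exact hinv b v w) (hq _) (lift_injective ρm)
    have c3 : Nat.card A ≤ Nat.card ((A ⧸ ρp.ker) × (A ⧸ ρm.ker)) := by
      apply Nat.card_le_card_of_injective
        (fun b : A => ((b : A ⧸ ρp.ker), (b : A ⧸ ρm.ker)))
      intro b c hbc
      rw [Prod.mk.injEq, QuotientGroup.eq, QuotientGroup.eq, MonoidHom.mem_ker,
        MonoidHom.mem_ker] at hbc
      have h1 : ρ (b⁻¹ * c) = 1 := by
        ext v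
        obtain ⟨u, hu, w, hw, rfl⟩ := hdec v
        have h2 : ρ (b⁻¹ * c) u = u := by
          have := LinearMap.congr_fun hbc.1 ⟨u, hu⟩
          exact congrArg Subtype.val this
        have h3 : ρ (b⁻¹ * c) w = w := by
          have := LinearMap.congr_fun hbc.2 ⟨w, hw⟩
          exact congrArg Subtype.val this
        rw [map_add, h2, h3]
        rfl
      have h2 : b⁻¹ * c = 1 := hinj (by rw [h1, map_one])
      exact (inv_mul_eq_one.1 h2)
    rw [Nat.card_prod] at c3
    calc Nat.card A ≤ _ := c3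
      _ ≤ p ^ (finrank ℝ Vp / 2) * p ^ (finrank ℝ Vm / 2) := Nat.mul_le_mul c1 c2
      _ = p ^ (finrank ℝ Vp / 2 + finrank ℝ Vm / 2) := (pow_add _ _ _).symm
      _ ≤ p ^ (n / 2) := Nat.pow_le_pow_right hp.pos (by omega)
  · push Not at hA
    have hfree : ∀ a, a ≠ 1 → ∀ v, ρ a v = v → v = 0 := by
      intro a ha v hv
      by_contra hv0
      apply ha
      apply hinj
      rw [map_one]
      ext w
      exact hA a ⟨v, hv0, hv⟩ w
    by_cases htriv : ∀ a : A, a = 1
    · have : Subsingleton A := ⟨fun a b => by rw [htriv a, htriv b]⟩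
      rw [Nat.card_eq_one_iff_unique.2 ⟨this, ⟨1⟩⟩]
      exact Nat.one_le_pow _ _ hp.pos
    push Not at htriv
    obtain ⟨a, ha⟩ := htriv
    have hnt : ∃ v : V, v ≠ 0 := by
      by_contra h
      push Not at h
      apply ha
      apply hinj
      ext w
      rw [h w, map_zero, map_zero]
    obtain ⟨v0, hv0⟩ := hnt
    have hsum : ∀ c, c ≠ 1 → ∀ v, ∑ i ∈ Finset.range p, ρ (c ^ i) v = 0 := fun c hc v =>
      hfree c hc _ (sum_fixed ρ (hpow c) v)
    have hfact : Fact (Nat.Prime p) := ⟨hp⟩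
    have hord : orderOf a = p := orderOf_eq_prime (hpow a) ha
    have hn2 : 2 ≤ n := by
      rw [← hn]
      exact two_le_finrank ω halt hnd hv0
    have hmem : ∀ b : A, b ∈ Subgroup.zpowers a := by
      intro b
      by_contra hb
      have h1 : ∀ j : ℕ, b * a ^ j ≠ 1 := by
        intro j hj
        apply hb
        rw [mul_eq_one_iff_eq_inv] at hj
        rw [hj]
        exact inv_mem (Subgroup.npow_mem_zpowers a j)
      have h2 : ∑ j ∈ Finset.range p, ∑ i ∈ Finset.range p, ρ ((b * a ^ j) ^ i) v0 = 0 :=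
        Finset.sum_eq_zero (fun j _ => hsum _ (h1 j) v0)
      rw [Finset.sum_comm] at h2
      rw [Finset.sum_eq_single 0] at h2
      · simp only [pow_zero, map_one, Module.End.one_apply, Finset.sum_const, Finset.card_range] at h2
        rw [← Nat.cast_smul_eq_nsmul ℝ] at h2
        exact hv0 ((smul_eq_zero.1 h2).resolve_left hp0)
      · intro i hi hi0
        have h3 : ∀ j, ρ ((b * a ^ j) ^ i) v0 = ρ (b ^ i) (ρ ((a ^ i) ^ j) v0) := by
          intro j
          rw [← rho_mul_apply, mul_pow, ← pow_mul, ← pow_mul, mul_comm j i]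
        rw [Finset.sum_congr rfl (fun j _ => h3 j), ← map_sum, hsum, map_zero]
        intro h4
        have h5 := orderOf_dvd_of_pow_eq_one h4
        rw [hord] at h5
        exact absurd (Nat.le_of_dvd (Nat.pos_of_ne_zero hi0) h5)
          (not_le.2 (Finset.mem_range.1 hi))
      · intro h; exact absurd (Finset.mem_range.2 hp.pos) h
    have hcard : Nat.card A = p := by
      rw [← hord]
      exact (orderOf_eq_card_of_forall_mem_zpowers hmem).symm
    rw [hcard]
    calc p = p ^ 1 := (pow_one p).symm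
      _ ≤ p ^ (n / 2) := Nat.pow_le_pow_right hp.pos (by omega)

/-- If moreover the group has a common nonzero fixed vector, then it has at most
`p ^ ((n - 2) / 2)` elements. -/
theorem card_le_symp_fixed {p : ℕ} (hp : p.Prime) {V : Type} [AddCommGroup V]
    [Module ℝ V] [FiniteDimensional ℝ V] (ω : V →ₗ[ℝ] V →ₗ[ℝ] ℝ) {A : Type} [CommGroup A] [Finite A]
    (ρ : A →* (V →ₗ[ℝ] V)) (halt : ∀ v, ω v v = 0) (hnd : ∀ v, (∀ w, ω v w = 0) → v = 0)
    (hinv : ∀ a v w, ω (ρ a v) (ρ a w) = ω v w)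
    (hpow : ∀ a : A, a ^ p = 1) (hinj : Function.Injective ρ)
    {v0 : V} (hv0 : v0 ≠ 0) (hfix0 : ∀ a, ρ a v0 = v0) :
      2 ≤ finrank ℝ V ∧ Nat.card A ≤ p ^ ((finrank ℝ V - 2) / 2) := by
  classical
  have := Fintype.ofFinite A
  have hc0 : (Fintype.card A : ℝ) ≠ 0 := Nat.cast_ne_zero.2 Fintype.card_ne_zero
  let S : V →ₗ[ℝ] V := ∑ a : A, ρ a
  have hS : ∀ v, S v = ∑ a : A, ρ a v := fun v => by
    simp only [S, LinearMap.sum_apply]
  let Vp : Submodule ℝ V :=
    { carrier := {v | ∀ a, ρ a v = v}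
      add_mem' := fun {u v} hu hv a => by rw [map_add, hu, hv]
      zero_mem' := fun a => map_zero _
      smul_mem' := fun c v hv a => by rw [map_smul, hv] }
  let Vm : Submodule ℝ V := LinearMap.ker S
  have hVp : ∀ v, v ∈ Vp ↔ ∀ a, ρ a v = v := fun v => Iff.rfl
  have hVm : ∀ v, v ∈ Vm ↔ S v = 0 := fun v => LinearMap.mem_ker
  have hSfix : ∀ v, (∀ a, ρ a v = v) → S v = (Fintype.card A : ℝ) • v := by
    intro v hv
    rw [hS, Finset.sum_congr rfl (fun a _ => hv a), Finset.sum_const, Finset.card_univ,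
      Nat.cast_smul_eq_nsmul]
  have hfix : ∀ v a, ρ a (S v) = S v := by
    intro v a
    rw [hS, map_sum]
    have h1 : ∀ b, ρ a (ρ b v) = ρ (a * b) v := fun b => by rw [rho_mul_apply]
    rw [Finset.sum_congr rfl (fun b _ => h1 b)]
    exact Fintype.sum_equiv (Equiv.mulLeft a) _ _ (fun b => rfl)
  have hScomm : ∀ (b : A) (v : V), S (ρ b v) = S v := by
    intro b v
    rw [hS, hS]
    have h1 : ∀ a, ρ a (ρ b v) = ρ (a * b) v := fun a => by rw [rho_mul_apply]
    rw [Finset.sum_congr rfl (fun a _ => h1 a)]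
    exact Fintype.sum_equiv (Equiv.mulRight b) _ _ (fun a => rfl)
  have hdec : ∀ v : V, ∃ u ∈ Vp, ∃ w ∈ Vm, v = u + w := by
    intro v
    refine ⟨(Fintype.card A : ℝ)⁻¹ • S v, ?_, v - (Fintype.card A : ℝ)⁻¹ • S v, ?_, ?_⟩
    · intro a
      rw [map_smul, hfix]
    · rw [hVm, map_sub, map_smul, hSfix (S v) (hfix v), smul_smul,
        inv_mul_cancel₀ hc0, one_smul, sub_self]
    · abel
  have hskew : ∀ u w, ω u w = - ω w u := by
    intro u w
    have h1 := halt (u + w)
    simp only [map_add, LinearMap.add_apply, halt] at h1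
    linarith
  have horth : ∀ u ∈ Vp, ∀ w ∈ Vm, ω u w = 0 := by
    intro u hu w hw
    rw [hVm, hS] at hw
    have h2 : ω u (∑ a : A, ρ a w) = (Fintype.card A : ℝ) * ω u w := by
      rw [map_sum]
      have h3 : ∀ a ∈ (Finset.univ : Finset A), ω u (ρ a w) = ω u w := by
        intro a _
        conv_lhs => rw [← hu a]
        exact hinv _ _ _
      rw [Finset.sum_congr rfl h3, Finset.sum_const, Finset.card_univ, nsmul_eq_mul]
    rw [hw, map_zero] at h2
    exact (mul_eq_zero.1 h2.symm).resolve_left hc0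
  have horth' : ∀ u ∈ Vm, ∀ w ∈ Vp, ω u w = 0 := by
    intro u hu w hw
    rw [hskew, horth w hw u hu, neg_zero]
  have hdec' : ∀ v : V, ∃ u ∈ Vm, ∃ w ∈ Vp, v = u + w := by
    intro v
    obtain ⟨u, hu, w, hw, h⟩ := hdec v
    exact ⟨w, hw, u, hu, by rw [h, add_comm]⟩
  have hcompl : IsCompl Vp Vm := by
    constructor
    · rw [Submodule.disjoint_def]
      intro v h1 h2
      rw [hVm, hSfix v h1] at h2
      exact (smul_eq_zero.1 h2).resolve_left hc0
    · rw [codisjoint_iff, eq_top_iff]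
      intro v _
      obtain ⟨u, hu, w, hw, rfl⟩ := hdec v
      exact Submodule.add_mem_sup hu hw
  have hrank := Submodule.finrank_add_eq_of_isCompl hcompl
  have h2 : 2 ≤ finrank ℝ Vp :=
    two_le_finrank (ω.domRestrict₁₂ Vp Vp) (fun v => halt v)
      (nondeg_summand ω hnd Vp Vm hdec horth) (v0 := ⟨v0, hfix0⟩)
      (fun h => hv0 (congrArg Subtype.val h))
  let ρm : A →* (Vm →ₗ[ℝ] Vm) :=
    { toFun := fun b => (ρ b).restrict (fun v hv => by
        rw [hVm] at hv ⊢
        rw [hScomm, hv])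
      map_one' := by
        ext v
        show ρ 1 (v : V) = v
        rw [map_one]; rfl
      map_mul' := fun b c => by
        ext v
        show ρ (b * c) (v : V) = ρ b (ρ c v)
        rw [map_mul]; rfl }
  have hinj' : Function.Injective ρm := by
    rw [injective_iff_map_eq_one]
    intro a ha
    apply hinj
    rw [map_one]
    ext v
    obtain ⟨u, hu, w, hw, rfl⟩ := hdec v
    have h3 : ρ a w = w := by
      have := LinearMap.congr_fun ha ⟨w, hw⟩
      exact congrArg Subtype.val this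
    rw [map_add, hu a, h3]
    rfl
  have c2 : Nat.card A ≤ p ^ (finrank ℝ Vm / 2) :=
    card_le_symp hp _ Vm (ω.domRestrict₁₂ Vm Vm) A ρm rfl (fun v => halt v)
      (nondeg_summand ω hnd Vm Vp hdec' horth') (fun a v w => hinv a v w) hpow hinj'
  exact ⟨by omega, c2.trans (Nat.pow_le_pow_right hp.pos (by omega))⟩

end Pool.Agent.H88.WF
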