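import Pool.Graph.R_seed8.H185.ZM.Iso
import Pool.Graph.R_seed8.R774.Root5
import Pool.Graph.R_pool_sql_team_seeded_843ab51a.V11211.WS4
import Pool.Agent.H88.WF.Symp

/-!
# The isotropy representation of a finite group of strict contact transformations
-/

set_option autoImplicit false
set_option linter.unusedSectionVars false

noncomputable section

namespace Pool.Agent.H88.WF

open scoped Manifold ContDiff Topology ENNReal
open Bundle Manifold Set Filter Module Pool.Agent.H185.ZM Pool.Agent.H826R2.WStmt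

variable {E : Type} [NormedAddCommGroup E] [NormedSpace ℝ E] [FiniteDimensional ℝ E]
  {M : Type} [TopologicalSpace M] [ChartedSpace E M] [IsManifold 𝓘(ℝ, E) ∞ M]

/-- the kernel of the contact form at a point -/
def Kr (α : M → Cov E) (x : M) : Submodule ℝ E :=
  LinearMap.ker ((show E →L[ℝ] ℝ from α x) : E →ₗ[ℝ] ℝ)

lemma mem_Kr {α : M → Cov E} {x : M} {v : E} : v ∈ Kr α x ↔ ev (α x) v = 0 := Iff.rfl

/-- the exterior derivative as a bilinear form -/
def om (α : M → Cov E) (x : M) : E →ₗ[ℝ] E →ₗ[ℝ] ℝ :=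
  LinearMap.mk₂ ℝ (fun u v => extDer α x u v)
    (fun u u' v => by unfold extDer dCoeff; simp only [map_add, _root_.add_apply]; ring)
    (fun c u v => by
      unfold extDer dCoeff
      simp only [map_smul, _root_.smul_apply, smul_eq_mul]; ring)
    (fun u v v' => by unfold extDer dCoeff; simp only [map_add, _root_.add_apply]; ring)
    (fun c u v => by
      unfold extDer dCoeff
      simp only [map_smul, _root_.smul_apply, smul_eq_mul]; ring)

lemma om_apply (α : M → Cov E) (x : M) (u v : E) : om α x u v = extDer α x u v := rfl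

lemma om_alt (α : M → Cov E) (x : M) (v : E) : om α x v v = 0 := by
  rw [om_apply]; unfold extDer; exact sub_self _

lemma finrank_Kr {α : M → Cov E} (hα : IsContact α) (x : M) {n : ℕ}
    (hn : finrank ℝ E = 2 * n + 1) : finrank ℝ (Kr α x) = 2 * n := by
  obtain ⟨v, hv⟩ := hα.ne_zero x
  have h1 := LinearMap.finrank_range_add_finrank_ker
    ((show E →L[ℝ] ℝ from α x) : E →ₗ[ℝ] ℝ)
  have h2 : LinearMap.range ((show E →L[ℝ] ℝ from α x) : E →ₗ[ℝ] ℝ) = ⊤ := by
    rw [LinearMap.range_eq_top]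
    intro c
    refine ⟨(c / ev (α x) v) • v, ?_⟩
    rw [map_smul, smul_eq_mul]
    exact div_mul_cancel₀ c hv
  rw [h2, finrank_top, finrank_self, hn] at h1
  have h3 : finrank ℝ (Kr α x) = finrank ℝ
    (LinearMap.ker ((show E →L[ℝ] ℝ from α x) : E →ₗ[ℝ] ℝ)) := rfl
  rw [h3]
  omega

lemma om_nondeg {α : M → Cov E} (hα : IsContact α) (x : M) (v : Kr α x)
    (hv : ∀ w : Kr α x, ((om α x).domRestrict₁₂ (Kr α x) (Kr α x)) v w = 0) : v = 0 :=
  Subtype.ext (hα.nondeg x v v.2 fun w hw => hv ⟨w, hw⟩)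

section act

variable {G : Type} [Group G] [MulAction G M]

/-- the derivative of a group element -/
def dg (E : Type) [NormedAddCommGroup E] [NormedSpace ℝ E] {M : Type} [TopologicalSpace M]
    [ChartedSpace E M] {G : Type} [Group G] [MulAction G M] (g : G) (x : M) : E →L[ℝ] E :=
  D (E' := E) (fun y : M => g • y) x

lemma dg_one (x : M) (v : E) : dg E (1 : G) x v = v := by
  have h1 : (fun y : M => (1 : G) • y) = id := funext fun y => one_smul G y
  unfold dg D
  rw [h1, mfderiv_id]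
  rfl

lemma dg_mul (hs : ∀ g : G, ContMDiff 𝓘(ℝ, E) 𝓘(ℝ, E) ∞ (fun x : M => g • x)) (g h : G) {x : M}
    (hx : h • x = x) (v : E) : dg E (g * h) x v = dg E g x (dg E h x v) := by
  have d1 : MDifferentiableAt 𝓘(ℝ, E) 𝓘(ℝ, E) (fun y : M => g • y) (h • x) :=
    (hs g _).mdifferentiableAt (by simp)
  have d2 : MDifferentiableAt 𝓘(ℝ, E) 𝓘(ℝ, E) (fun y : M => h • y) x :=
    (hs h x).mdifferentiableAt (by simp)
  have e1 := mfderiv_comp x (g := fun y : M => g • y) (f := fun y : M => h • y) d1 d2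
  have e2 : (fun y : M => g • y) ∘ (fun y : M => h • y) = fun y : M => (g * h) • y :=
    funext fun y => (mul_smul g h y).symm
  rw [e2] at e1
  have e3 : dg E (g * h) x v = dg E g (h • x) (dg E h x v) :=
    congrArg (fun L : E →L[ℝ] E => L v) e1
  rw [e3, hx]

lemma ev_dg {α : M → Cov E} (hpr : ∀ g : G, pull (fun x : M => g • x) α = α) (g : G) {x : M}
    (hx : g • x = x) (v : E) : ev (α x) (dg E g x v) = ev (α x) v := by
  have h1 : ev (α (g • x)) (dg E g x v) = ev (α x) v :=
    congrArg (fun a : Cov E => ev a v) (congrFun (hpr g) x)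
  rwa [hx] at h1

lemma st {α : M → Cov E}
    (hs : ∀ g : G, ContMDiff 𝓘(ℝ, E) 𝓘(ℝ, E) ∞ (fun x : M => g • x))
    (hpr : ∀ g : G, pull (fun x : M => g • x) α = α) (g : G) :
    Pool.Agent.R774.Root.St (toForm α) (fun x : M => g • x) where
  smooth := hs g
  strict := fun x u => by
    have h1 := congrFun (hpr g) x
    exact congrArg (fun a : Cov E => ev a (u : E)) h1

lemma om_dg {α : M → Cov E} (hα : IsContact α)
    (hs : ∀ g : G, ContMDiff 𝓘(ℝ, E) 𝓘(ℝ, E) ∞ (fun x : M => g • x))
    (hpr : ∀ g : G, pull (fun x : M => g • x) α = α) (g : G) {x : M}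
    (hx : g • x = x) (u v : E) : om α x (dg E g x u) (dg E g x v) = om α x u v := by
  have h1 : extDer α (g • x) (dg E g x u) (dg E g x v) + ev (α (g • x)) (dg E g x u) *
      ev (α (g • x)) (dg E g x v) = extDer α x u v + ev (α x) u * ev (α x) v := by
    have h2 := (st hs hpr g).HB_push hα.toWein.smooth x u v
    rw [Pool.Agent.H826R2.Wein.HB_apply, Pool.Agent.H826R2.Wein.HB_apply] at h2
    rw [add_comm, add_comm (extDer α x u v)]
    exact h2
  rw [hx, ev_dg hpr g hx, ev_dg hpr g hx] at h1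
  rw [om_apply, om_apply]
  linarith

lemma dg_reeb {α : M → Cov E} (hα : IsContact α) {R : M → E} (hR : IsReeb α R)
    (hs : ∀ g : G, ContMDiff 𝓘(ℝ, E) 𝓘(ℝ, E) ∞ (fun x : M => g • x))
    (hpr : ∀ g : G, pull (fun x : M => g • x) α = α) (g : G) {x : M}
    (hx : g • x = x) : dg E g x (R x) = R x := by
  have h1 : dg E g x (R x) = R (g • x) :=
    (st hs hpr g).push_R (R := fun x => (R x : TangentSpace 𝓘(ℝ, E) x))
      ⟨hα.toWein, hR.toWein⟩ x
  rw [h1, hx]

/-- an element with trivial derivative at a fixed point acts trivially -/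
lemma trivial_of_dg [CompactSpace M] [T2Space M] [PreconnectedSpace M] [Finite G]
    (hs : ∀ g : G, ContMDiff 𝓘(ℝ, E) 𝓘(ℝ, E) ∞ (fun x : M => g • x)) (g : G) {x : M}
    (hx : g • x = x) (hd : ∀ v, dg E g x v = v) (y : M) : g • y = y := by
  have ha : SmoothAction E (fun (g : G) (x : M) => g • x) := ⟨one_smul G, mul_smul, hs⟩
  obtain ⟨W, _, _, _, F, T, hF⟩ := exists_equi ha
  refine hF.trivial_of_fix ha hx ?_ y
  rintro v ⟨u, rfl⟩
  have h1 : DF E F (g • x) (dg E g x u) = T g (DF E F x u) := hF.D_act ha g x u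
  rw [hx, hd u] at h1
  exact h1.symm

/-- the isotropy representation on the kernel of the contact form -/
def rho {α : M → Cov E} (hs : ∀ g : G, ContMDiff 𝓘(ℝ, E) 𝓘(ℝ, E) ∞ (fun x : M => g • x))
    (hpr : ∀ g : G, pull (fun x : M => g • x) α = α) (x : M) :
    MulAction.stabilizer G x →* (Kr α x →ₗ[ℝ] Kr α x) where
  toFun g := ((dg E (g : G) x : E →L[ℝ] E) : E →ₗ[ℝ] E).restrict (fun v hv => by
    have hg : (g : G) • x = x := g.2
    exact (ev_dg hpr g hg v).trans hv)
  map_one' := by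
    ext v
    exact dg_one x _
  map_mul' g h := by
    ext v
    have hg : (h : G) • x = x := h.2
    exact dg_mul hs g h hg _

lemma rho_apply {α : M → Cov E}
    (hs : ∀ g : G, ContMDiff 𝓘(ℝ, E) 𝓘(ℝ, E) ∞ (fun x : M => g • x))
    (hpr : ∀ g : G, pull (fun x : M => g • x) α = α) (x : M) (g : MulAction.stabilizer G x)
    (v : Kr α x) : (rho hs hpr x g v : E) = dg E (g : G) x v := rfl

lemma rho_inj [CompactSpace M] [T2Space M] [PreconnectedSpace M] [Finite G] [FaithfulSMul G M]
    {α : M → Cov E} (hα : IsContact α) {R : M → E} (hR : IsReeb α R)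
    (hs : ∀ g : G, ContMDiff 𝓘(ℝ, E) 𝓘(ℝ, E) ∞ (fun x : M => g • x))
    (hpr : ∀ g : G, pull (fun x : M => g • x) α = α) (x : M) :
    Function.Injective (rho hs hpr x) := by
  rw [injective_iff_map_eq_one]
  intro g hg
  have hgx : (g : G) • x = x := g.2
  apply Subtype.ext
  apply FaithfulSMul.eq_of_smul_eq_smul (α := M)
  intro y
  rw [show ((1 : MulAction.stabilizer G x) : G) = 1 from rfl, one_smul]
  refine trivial_of_dg (E := E) hs g hgx ?_ y
  intro v
  have h1 : v - ev (α x) v • R x ∈ Kr α x := by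
    rw [mem_Kr]
    show (show E →L[ℝ] ℝ from α x) (v - ev (α x) v • R x) = 0
    rw [map_sub, map_smul]
    have h2 : (show E →L[ℝ] ℝ from α x) (R x) = 1 := hR.unit x
    rw [h2, smul_eq_mul, mul_one]
    exact sub_self _
  have h2 : dg E (g : G) x (v - ev (α x) v • R x) = v - ev (α x) v • R x := by
    have h3 := LinearMap.congr_fun hg ⟨_, h1⟩
    exact congrArg Subtype.val h3
  rw [map_sub, map_smul, dg_reeb hα hR hs hpr g hgx] at h2
  exact sub_left_injective h2

end act

section main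

variable {G : Type} [CommGroup G] [MulAction G M] [Finite G] [FaithfulSMul G M]

/-- the order of a stabilizer -/
theorem card_stab_le [CompactSpace M] [T2Space M] [PreconnectedSpace M] {n : ℕ}
    (hn : finrank ℝ E = 2 * n + 1) {α : M → Cov E} (hα : IsContact α) {R : M → E}
    (hR : IsReeb α R)
    (hs : ∀ g : G, ContMDiff 𝓘(ℝ, E) 𝓘(ℝ, E) ∞ (fun x : M => g • x))
    (hpr : ∀ g : G, pull (fun x : M => g • x) α = α) {p : ℕ} (hp : p.Prime)
    (hpow : ∀ g : G, g ^ p = 1) (x : M) :
    Nat.card (MulAction.stabilizer G x) ≤ p ^ n := by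
  have h1 := card_le_symp hp (2 * n) (Kr α x) ((om α x).domRestrict₁₂ (Kr α x) (Kr α x))
    (MulAction.stabilizer G x) (rho hs hpr x) (finrank_Kr hα x hn) (fun v => om_alt α x v)
    (om_nondeg hα x) (fun a v w => by
      have hg : (a : G) • x = x := a.2
      exact om_dg hα hs hpr a hg v w)
    (fun a => Subtype.ext (hpow a)) (rho_inj hα hR hs hpr x)
  rwa [Nat.mul_div_cancel_left n (by norm_num)] at h1

/-- large stabilizers have no common fixed vector -/
theorem periodic_of_stab [CompactSpace M] [T2Space M] [PreconnectedSpace M] {n : ℕ}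
    (hn : finrank ℝ E = 2 * n + 1) {α : M → Cov E} (hα : IsContact α) {R : M → E}
    (hR : IsReeb α R)
    (hs : ∀ g : G, ContMDiff 𝓘(ℝ, E) 𝓘(ℝ, E) ∞ (fun x : M => g • x))
    (hpr : ∀ g : G, pull (fun x : M => g • x) α = α) {p : ℕ} (hp : p.Prime)
    (hpow : ∀ g : G, g ^ p = 1) (x : M)
    (hx : p ^ n ≤ Nat.card (MulAction.stabilizer G x)) :
    ∃ (c : ℝ → M) (T : ℝ), c 0 = x ∧ IsPeriodicOrbit R c T := by
  refine Pool.Agent.V11211.WS.exists_periodic_finite (G := MulAction.stabilizer G x) α hα R hR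
    (fun g => hs g) (fun g => hpr g) x (fun g => g.2) ?_
  intro v hv hfix
  by_contra hv0
  have h1 := card_le_symp_fixed hp ((om α x).domRestrict₁₂ (Kr α x) (Kr α x))
    (rho hs hpr x) (fun v => om_alt α x v)
    (om_nondeg hα x) (fun a v w => by
      have hg : (a : G) • x = x := a.2
      exact om_dg hα hs hpr a hg v w)
    (fun a => Subtype.ext (hpow a)) (rho_inj hα hR hs hpr x) (v0 := ⟨v, hv⟩)
    (fun h => hv0 (congrArg Subtype.val h)) (fun a => Subtype.ext (hfix a))
  rw [finrank_Kr hα x hn] at h1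
  obtain ⟨h2, h3⟩ := h1
  have h4 : p ^ ((2 * n - 2) / 2) < p ^ n := Nat.pow_lt_pow_right hp.one_lt (by omega)
  omega

end main

end Pool.Agent.H88.WF
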