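import Pool.Agent.H88.WF.Iso
import Pool.Agent.H54.Hb.Man
import Pool.Graph.R_pool_sql_team_seeded_b677cdb8.E8helper2.ZB.Pos2

/-!
# Contact forms with large elementary abelian symmetry groups
-/

set_option autoImplicit false
set_option linter.unusedSectionVars false

noncomputable section

namespace Pool.Agent.H88.WF

open scoped Manifold ContDiff Topology ENNReal
open Bundle Manifold Set Filter Module Pool.Agent.H185.ZM Pool.Agent.H826R2.WStmt
open Pool.Agent.Helper381 (totalBetti)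

/-- the defect: `B / 2` for `p = 2` and `B - 1` for odd `p` -/
def defect (p B : ℕ) : ℕ := if p = 2 then B / 2 else B - 1

variable {E : Type} [NormedAddCommGroup E] [NormedSpace ℝ E] [FiniteDimensional ℝ E]
  {M : Type} [TopologicalSpace M] [ChartedSpace E M] [IsManifold 𝓘(ℝ, E) ∞ M]
  {G : Type} [CommGroup G] [MulAction G M] [Finite G]

/-- if all stabilizers have an order dividing `s` then `|G|` divides `s * p ^ defect` -/
theorem card_dvd_defect [CompactSpace M] [T2Space M] [ConnectedSpace M]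
    (hs : ∀ g : G, ContMDiff 𝓘(ℝ, E) 𝓘(ℝ, E) ∞ (fun x : M => g • x))
    {p : ℕ} (hp : p.Prime) (hpow : ∀ g : G, g ^ p = 1) (s : ℕ)
    (h : ∀ (x : M), Nat.card (MulAction.stabilizer G x) ∣ s) :
    haveI : Fact p.Prime := ⟨hp⟩
    totalBetti (ZMod p) M ≠ ⊤ ∧ Nat.card G ∣ s * p ^ defect p (totalBetti (ZMod p) M).toNat := by
  have ha : SmoothAction E (fun (g : G) (x : M) => g • x) := ⟨one_smul G, mul_smul, hs⟩
  have h' : ∀ (x : M) (Q : Subgroup G), (∀ g ∈ Q, g • x = x) → Nat.card Q ∣ s := by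
    intro x Q hQ
    exact (Subgroup.card_dvd_of_le (fun g hg => hQ g hg)).trans (h x)
  by_cases h2 : p = 2
  · subst h2
    haveI : Fact (Nat.Prime 2) := ⟨hp⟩
    have h3 := Pool.Agent.H54.Hb.smooth_h (q := 2) (c := 2) (τ := Pool.Agent.H54.Hb.hb)
      (fun T _ _ Q h1 h2 h3 h4 => Pool.Agent.H54.Hb.pos_two G hpow T Q h1 h2 h3 h4) ha s h'
    refine ⟨h3.1, h3.2.trans (mul_dvd_mul_left s (pow_dvd_pow 2 ?_))⟩
    unfold Pool.Agent.H54.Hb.hb defect
    split_ifs <;> omega
  · haveI : Fact p.Prime := ⟨hp⟩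
    have h3 := Pool.Agent.E8helper86.ZB.smooth_betti
      (Pool.Agent.E8helper86.ZB.posB_of Pool.Agent.E8helper2.ZB.pos p G hpow) ha s h'
    refine ⟨h3.1, ?_⟩
    have h4 : defect p (totalBetti (ZMod p) M).toNat = (totalBetti (ZMod p) M).toNat - 1 := by
      unfold defect; rw [if_neg h2]
    rw [h4]
    exact h3.2

/-- **Main theorem.** -/
theorem main [CompactSpace M] [T2Space M] [ConnectedSpace M] [FaithfulSMul G M] {n : ℕ}
    (hn : finrank ℝ E = 2 * n + 1) {α : M → Cov E} (hα : IsContact α) {R : M → E}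
    (hR : IsReeb α R)
    (hs : ∀ g : G, ContMDiff 𝓘(ℝ, E) 𝓘(ℝ, E) ∞ (fun x : M => g • x))
    (hpr : ∀ g : G, pull (fun x : M => g • x) α = α) {p : ℕ} (hp : p.Prime)
    (hpow : ∀ g : G, g ^ p = 1) {r : ℕ} (hr : Nat.card G = p ^ r) :
    haveI : Fact p.Prime := ⟨hp⟩
    totalBetti (ZMod p) M ≠ ⊤ ∧ r ≤ n + defect p (totalBetti (ZMod p) M).toNat ∧
    (r = n + defect p (totalBetti (ZMod p) M).toNat →
      ∃ (c : ℝ → M) (T : ℝ), Nat.card (MulAction.stabilizer G (c 0)) = p ^ n ∧
        IsPeriodicOrbit R c T) := by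
  haveI : Fact p.Prime := ⟨hp⟩
  have hst : ∀ x : M, ∃ k, Nat.card (MulAction.stabilizer G x) = p ^ k ∧ k ≤ n := by
    intro x
    have h1 : Nat.card (MulAction.stabilizer G x) ∣ p ^ r := by
      rw [← hr]; exact Subgroup.card_subgroup_dvd_card _
    obtain ⟨k, -, hk⟩ := (Nat.dvd_prime_pow hp).1 h1
    have h2 := card_stab_le hn hα hR hs hpr hp hpow x
    rw [hk] at h2
    exact ⟨k, hk, (Nat.pow_le_pow_iff_right hp.one_lt).1 h2⟩
  have h1 := card_dvd_defect (E := E) (M := M) hs hp hpow (p ^ n) (fun x => by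
    obtain ⟨k, hk, hkn⟩ := hst x
    rw [hk]
    exact pow_dvd_pow p hkn)
  refine ⟨h1.1, ?_, ?_⟩
  · have h2 := h1.2
    rw [hr, ← pow_add] at h2
    exact (Nat.pow_dvd_pow_iff_le_right hp.one_lt).1 h2
  · intro hreq
    have hex : ∃ x : M, Nat.card (MulAction.stabilizer G x) = p ^ n := by
      by_contra hno
      push Not at hno
      have hn0 : n ≠ 0 := by
        rintro rfl
        obtain ⟨x⟩ : Nonempty M := inferInstance
        obtain ⟨k, hk, hk0⟩ := hst x
        apply hno x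
        rw [hk, Nat.le_zero.1 hk0]
      have h3 := card_dvd_defect (E := E) (M := M) hs hp hpow (p ^ (n - 1)) (fun x => by
        obtain ⟨k, hk, hkn⟩ := hst x
        rw [hk]
        apply pow_dvd_pow p
        have h4 : k ≠ n := by
          rintro rfl
          exact hno x hk
        omega)
      have h4 := h3.2
      rw [hr, ← pow_add] at h4
      have h5 := (Nat.pow_dvd_pow_iff_le_right hp.one_lt).1 h4
      omega
    obtain ⟨x, hx⟩ := hex
    obtain ⟨c, T, h0, h2⟩ := periodic_of_stab hn hα hR hs hpr hp hpow x hx.ge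
    exact ⟨c, T, by rw [h0]; exact hx, h2⟩

end Pool.Agent.H88.WF
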